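import Pool.Agent.Y166.CS.Stm3

/-!
# CS-LIN: degree one, the exponent is determined by the Jacobian ideal

Owner helper383 (for helper166).
-/

set_option autoImplicit false

namespace Pool.Agent.Y383.CS

open MvPolynomial
open Pool.Agent.Results.MP_c4712b_ag.ManyNodesFamily
open Pool.Agent.Y166.CS (Jac S_JAC S_LIN)

noncomputable section

/-- the ideal `(x - c, z, y ^ (k - 1))` -/
def J (c : ℂ) (k : ℕ) : Ideal Poly3 := Ideal.span {X 0 - C c, X 2, X 1 ^ (k - 1)}

/-- the substitution `x = c`, `z = 0` -/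
def sub (c : ℂ) : Poly3 →ₐ[ℂ] Polynomial ℂ :=
  aeval ![Polynomial.C c, Polynomial.X, 0]

lemma surf_lin (u c : ℂ) (k : ℕ) :
    surf (Polynomial.C u * (Polynomial.X - Polynomial.C c)) k =
      C u * (X 0 - C c) * X 2 - X 1 ^ k := by
  simp [surf, MvPolynomial.algebraMap_eq]

lemma pd0 (u c : ℂ) (k : ℕ) :
    pderiv 0 (C u * (X 0 - C c) * X 2 - X 1 ^ k : Poly3) = C u * X 2 := by
  have h01 : pderiv (0 : Fin 3) (X 1 : Poly3) = 0 := pderiv_X_of_ne (by decide)
  have h02 : pderiv (0 : Fin 3) (X 2 : Poly3) = 0 := pderiv_X_of_ne (by decide)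
  simp only [map_sub, Derivation.leibniz, Derivation.leibniz_pow, h01, h02, pderiv_X_self,
    pderiv_C, smul_eq_mul]
  simp only [mul_zero, smul_zero, sub_zero, mul_one, add_zero, zero_add]
  ring

lemma pd1 (u c : ℂ) (k : ℕ) :
    pderiv 1 (C u * (X 0 - C c) * X 2 - X 1 ^ k : Poly3) = C (-(k : ℂ)) * X 1 ^ (k - 1) := by
  have h10 : pderiv (1 : Fin 3) (X 0 : Poly3) = 0 := pderiv_X_of_ne (by decide)
  have h12 : pderiv (1 : Fin 3) (X 2 : Poly3) = 0 := pderiv_X_of_ne (by decide)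
  simp only [map_sub, Derivation.leibniz, Derivation.leibniz_pow, h10, h12, pderiv_X_self,
    pderiv_C, smul_eq_mul]
  simp only [mul_zero, sub_zero, mul_one, add_zero, zero_sub, map_neg, nsmul_eq_mul]
  have : (C (k : ℂ) : Poly3) = (k : Poly3) := by simp
  rw [this]
  ring

lemma pd2 (u c : ℂ) (k : ℕ) :
    pderiv 2 (C u * (X 0 - C c) * X 2 - X 1 ^ k : Poly3) = C u * (X 0 - C c) := by
  have h20 : pderiv (2 : Fin 3) (X 0 : Poly3) = 0 := pderiv_X_of_ne (by decide)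
  have h21 : pderiv (2 : Fin 3) (X 1 : Poly3) = 0 := pderiv_X_of_ne (by decide)
  simp only [map_sub, Derivation.leibniz, Derivation.leibniz_pow, h20, h21, pderiv_X_self,
    pderiv_C, smul_eq_mul]
  simp only [mul_zero, smul_zero, sub_zero, mul_one, add_zero]

lemma C_inv_mul {a : ℂ} (ha : a ≠ 0) (p : Poly3) : C a⁻¹ * (C a * p) = p := by
  rw [← mul_assoc, ← map_mul, inv_mul_cancel₀ ha, map_one, one_mul]

lemma J_le_Jac {u : ℂ} (hu : u ≠ 0) (c : ℂ) {k : ℕ} (hk : 2 ≤ k) :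
    J c k ≤ Jac (C u * (X 0 - C c) * X 2 - X 1 ^ k : Poly3) := by
  have hmem : ∀ i : Fin 3, pderiv i (C u * (X 0 - C c) * X 2 - X 1 ^ k : Poly3) ∈
      Jac (C u * (X 0 - C c) * X 2 - X 1 ^ k : Poly3) :=
    fun i => Ideal.subset_span (Set.mem_insert_of_mem _ ⟨i, rfl⟩)
  have hk0 : (-(k : ℂ)) ≠ 0 := by
    rw [neg_ne_zero]
    have : k ≠ 0 := by omega
    exact_mod_cast this
  rw [J, Ideal.span_le]
  rintro x (rfl | rfl | rfl)
  · have h := Ideal.mul_mem_left _ (C u⁻¹) (hmem 2)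
    rw [pd2, C_inv_mul hu] at h
    exact h
  · have h := Ideal.mul_mem_left _ (C u⁻¹) (hmem 0)
    rw [pd0, C_inv_mul hu] at h
    exact h
  · have h := Ideal.mul_mem_left _ (C (-(k : ℂ))⁻¹) (hmem 1)
    rw [pd1, C_inv_mul hk0] at h
    exact h

lemma mem0 (c : ℂ) (k : ℕ) : (X 0 - C c : Poly3) ∈ J c k := Ideal.subset_span (by simp)
lemma mem2 (c : ℂ) (k : ℕ) : (X 2 : Poly3) ∈ J c k := Ideal.subset_span (by simp)
lemma mem1 (c : ℂ) (k : ℕ) : (X 1 ^ (k - 1) : Poly3) ∈ J c k := Ideal.subset_span (by simp)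

lemma surf_mem_J (u c : ℂ) {k : ℕ} (hk : 2 ≤ k) :
    (C u * (X 0 - C c) * X 2 - X 1 ^ k : Poly3) ∈ J c k := by
  have h1 : (X 1 ^ k : Poly3) = X 1 * X 1 ^ (k - 1) := by
    rw [← pow_succ']
    congr 1
    omega
  rw [h1]
  exact Ideal.sub_mem _ (Ideal.mul_mem_left _ _ (mem2 c k)) (Ideal.mul_mem_left _ _ (mem1 c k))

lemma Jac_le_J (u c : ℂ) {k : ℕ} (hk : 2 ≤ k) :
    Jac (C u * (X 0 - C c) * X 2 - X 1 ^ k : Poly3) ≤ J c k := by
  rw [Jac, Ideal.span_le]
  rintro x (rfl | ⟨i, rfl⟩)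
  · exact surf_mem_J u c hk
  · have h0 := Ideal.mul_mem_left _ (C u) (mem2 c k)
    have h1 := Ideal.mul_mem_left _ (C (-(k : ℂ))) (mem1 c k)
    have h2 := Ideal.mul_mem_left _ (C u) (mem0 c k)
    rw [← pd0 u c k] at h0
    rw [← pd1 u c k] at h1
    rw [← pd2 u c k] at h2
    fin_cases i
    · exact h0
    · exact h1
    · exact h2

lemma mk_eq (c : ℂ) (k : ℕ) (w : Poly3) :
    Ideal.Quotient.mk (J c k) w =
      Ideal.Quotient.mk (J c k) (Polynomial.aeval (X 1 : Poly3) (sub c w)) := by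
  have h : (Ideal.Quotient.mkₐ ℂ (J c k)) =
      (Ideal.Quotient.mkₐ ℂ (J c k)).comp ((Polynomial.aeval (X 1 : Poly3)).comp (sub c)) := by
    apply MvPolynomial.algHom_ext
    intro i
    fin_cases i
    · have h0 := Ideal.Quotient.eq.mpr (mem0 c k)
      simpa [sub, MvPolynomial.algebraMap_eq] using h0
    · simp [sub]
    · have h2 := Ideal.Quotient.eq_zero_iff_mem.mpr (mem2 c k)
      simpa [sub] using h2
  exact DFunLike.congr_fun h w

lemma eval_sub (c : ℂ) (w : Poly3) : (sub c w).eval 0 = eval (spt c) w := by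
  have h : (Polynomial.aeval (0 : ℂ)).comp (sub c) = (aeval (spt c) : Poly3 →ₐ[ℂ] ℂ) := by
    apply MvPolynomial.algHom_ext
    intro i
    fin_cases i <;> simp [sub, spt]
  have h1 := DFunLike.congr_fun h w
  simpa [Polynomial.aeval_def, Polynomial.eval₂_id, MvPolynomial.aeval_eq_eval,
    Polynomial.eval₂_eq_eval_map] using h1

/-- a polynomial which vanishes at the point has its power in the ideal -/
lemma pow_mem (c : ℂ) (k : ℕ) (w : Poly3) (hw : eval (spt c) w = 0) : w ^ (k - 1) ∈ J c k := by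
  rw [← Ideal.Quotient.eq_zero_iff_mem, map_pow, mk_eq]
  have h0 : (sub c w).coeff 0 = 0 := by
    rw [Polynomial.coeff_zero_eq_eval_zero, eval_sub, hw]
  obtain ⟨r, hr⟩ := Polynomial.X_dvd_iff.mpr h0
  rw [hr, map_mul, Polynomial.aeval_X, map_mul, mul_pow, ← map_pow,
    Ideal.Quotient.eq_zero_iff_mem.mpr (mem1 c k), zero_mul]

/-- powers of `y` in the ideal -/
lemma le_of_pow_mem (c : ℂ) {k l : ℕ} (hk : 2 ≤ k) (hl : 2 ≤ l)
    (h : (X 1 ^ (l - 1) : Poly3) ∈ J c k) : k ≤ l := by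
  have h1 : J c k ≤ (Ideal.span {(Polynomial.X ^ (k - 1) : Polynomial ℂ)}).comap (sub c) := by
    rw [J, Ideal.span_le]
    rintro x (rfl | rfl | rfl)
    · simp [sub, Polynomial.algebraMap_eq]
    · simp [sub]
    · simp only [SetLike.mem_coe, Ideal.mem_comap, map_pow]
      rw [Ideal.mem_span_singleton]
      simp [sub]
  have h2 := h1 h
  rw [Ideal.mem_comap, Ideal.mem_span_singleton, map_pow] at h2
  have h3 : sub c (X 1) = Polynomial.X := by simp [sub]
  rw [h3] at h2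
  have h4 := (pow_dvd_pow_iff Polynomial.X_ne_zero Polynomial.not_isUnit_X).mp h2
  omega

lemma deg_one {f : Polynomial ℂ} (hf : f.natDegree = 1) :
    ∃ u c : ℂ, u ≠ 0 ∧ f = Polynomial.C u * (Polynomial.X - Polynomial.C c) := by
  have h1 := Polynomial.eq_X_add_C_of_natDegree_le_one hf.le
  have hu : f.coeff 1 ≠ 0 := by
    intro h
    have h2 : f.leadingCoeff = 0 := by rw [Polynomial.leadingCoeff, hf, h]
    rw [Polynomial.leadingCoeff_eq_zero] at h2
    rw [h2] at hf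
    simp at hf
  refine ⟨f.coeff 1, -(f.coeff 0 / f.coeff 1), hu, ?_⟩
  conv_lhs => rw [h1]
  rw [map_neg, sub_neg_eq_add, mul_add, ← map_mul, mul_div_cancel₀ _ hu]

lemma sing_lin {u : ℂ} (hu : u ≠ 0) (c : ℂ) {k : ℕ} (hk : 2 ≤ k) (a : Fin 3 → ℂ) :
    IsSingularPt (surf (Polynomial.C u * (Polynomial.X - Polynomial.C c)) k) a ↔ a = spt c := by
  have hsq : Squarefree (Polynomial.C u * (Polynomial.X - Polynomial.C c)) := by
    have hirr : Irreducible (Polynomial.C u * (Polynomial.X - Polynomial.C c)) := by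
      rw [irreducible_isUnit_mul (Polynomial.isUnit_C.mpr hu.isUnit)]
      exact Polynomial.irreducible_X_sub_C c
    exact hirr.squarefree
  rw [sing_surf hsq hk]
  simp only [Polynomial.eval_mul, Polynomial.eval_C, Polynomial.eval_sub, Polynomial.eval_X,
    mul_eq_zero, hu, false_or, sub_eq_zero]
  constructor
  · rintro ⟨h0, h1, h2⟩
    funext i
    fin_cases i <;> simp [spt, h0, h1, h2]
  · rintro rfl
    simp [spt]

theorem done (hJ : S_JAC) : S_LIN := by
  intro f g hf hg k l hk hl F G hFq hGp hFG hGF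
  obtain ⟨u, c, hu, rfl⟩ := deg_one hf
  obtain ⟨u', c', hu', rfl⟩ := deg_one hg
  have hs : IsSingularPt (surf (Polynomial.C u' * (Polynomial.X - Polynomial.C c')) l) (spt c') :=
    (sing_lin hu' c' hl _).mpr rfl
  have hs2 := sing_push hGp hGF (spt c') hs
  rw [sing_lin hu c hk] at hs2
  have hw : eval (spt c') (G 1) = 0 := by
    have := congrFun hs2 1
    simpa [spt] using this
  have hw2 : G 1 ^ (l - 1) ∈ Jac (surf (Polynomial.C u' * (Polynomial.X - Polynomial.C c')) l) := by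
    rw [surf_lin]
    exact J_le_Jac hu' c' hl (pow_mem c' l (G 1) hw)
  have h1 := hJ _ _ F G hFq hFG _ hw2
  rw [surf_lin] at h1
  have h2 := Jac_le_J u c hk h1
  obtain ⟨h, hh⟩ := hFG 1
  rw [surf_lin] at hh
  apply le_of_pow_mem c hk hl
  rw [← Ideal.Quotient.eq_zero_iff_mem] at h2 ⊢
  rw [map_pow, hh, map_pow, map_add, map_mul,
    Ideal.Quotient.eq_zero_iff_mem.mpr (surf_mem_J u c hk), mul_zero, add_zero] at h2
  rw [map_pow]
  exact h2

end

end Pool.Agent.Y383.CS
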